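import Mathlib

set_option autoImplicit false

open MeasureTheory Set Real

namespace Pool.Agent.H541R3.Fk

lemma betaReal : (Complex.betaIntegral ((3 / 4 : ℝ) : ℂ) ((1 / 2 : ℝ) : ℂ)).re =
    ∫ x in Ioo (0 : ℝ) 1, x ^ ((3 / 4 : ℝ) - 1) * (1 - x) ^ ((1 / 2 : ℝ) - 1) := by
  unfold Complex.betaIntegral
  rw [intervalIntegral.integral_of_le zero_le_one, ← integral_Ioc_eq_integral_Ioo]
  have h : ∫ x in Ioc (0 : ℝ) 1, ((x : ℂ) ^ (((3 / 4 : ℝ) : ℂ) - 1) *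
      (1 - (x : ℂ)) ^ (((1 / 2 : ℝ) : ℂ) - 1)) =
      ∫ x in Ioc (0 : ℝ) 1, ((x ^ ((3 / 4 : ℝ) - 1) * (1 - x) ^ ((1 / 2 : ℝ) - 1) : ℝ) : ℂ) := by
    refine setIntegral_congr_fun measurableSet_Ioc fun x hx => ?_
    rw [Complex.ofReal_mul, Complex.ofReal_cpow hx.1.le, Complex.ofReal_cpow (by linarith [hx.2])]
    push_cast
    rfl
  rw [h, integral_complex_ofReal, Complex.ofReal_re]

lemma img : (fun t : ℝ => cos t ^ 2) '' Ioo 0 (π / 2) = Ioo (0 : ℝ) 1 := by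
  ext x
  constructor
  · rintro ⟨t, ht, rfl⟩
    have h1 : 0 < cos t := cos_pos_of_mem_Ioo ⟨by linarith [ht.1, pi_pos], ht.2⟩
    have h2 : 0 < sin t := sin_pos_of_pos_of_lt_pi ht.1 (by linarith [ht.2, pi_pos])
    have h3 := sin_sq_add_cos_sq t
    exact ⟨by positivity, by nlinarith⟩
  · intro hx
    have h1 : 0 < √x := sqrt_pos.2 hx.1
    have h2 : √x < 1 := by rw [sqrt_lt' one_pos]; simpa using hx.2
    refine ⟨arccos (√x), ⟨arccos_pos.2 h2, arccos_lt_pi_div_two.2 h1⟩, ?_⟩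
    show cos (arccos (√x)) ^ 2 = x
    rw [cos_arccos (by linarith) h2.le, sq_sqrt hx.1.le]

lemma subst_int : ∫ x in Ioo (0 : ℝ) 1, x ^ ((3 / 4 : ℝ) - 1) * (1 - x) ^ ((1 / 2 : ℝ) - 1) =
    2 * ∫ t in Ioo (0 : ℝ) (π / 2), √(cos t) := by
  have hinj : InjOn (fun t : ℝ => cos t ^ 2) (Ioo 0 (π / 2)) := by
    intro s hs t ht h
    have hs1 : 0 < cos s := cos_pos_of_mem_Ioo ⟨by linarith [hs.1, pi_pos], hs.2⟩
    have ht1 : 0 < cos t := cos_pos_of_mem_Ioo ⟨by linarith [ht.1, pi_pos], ht.2⟩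
    have h2 : cos s = cos t := by
      have := (sq_eq_sq₀ hs1.le ht1.le).1 h
      exact this
    exact injOn_cos ⟨hs.1.le, by linarith [hs.2, pi_pos]⟩ ⟨ht.1.le, by linarith [ht.2, pi_pos]⟩ h2
  have hd : ∀ t ∈ Ioo (0 : ℝ) (π / 2),
      HasDerivWithinAt (fun t : ℝ => cos t ^ 2) (2 * cos t * (-sin t)) (Ioo 0 (π / 2)) t := by
    intro t _
    have h := ((hasDerivAt_cos t).mul (hasDerivAt_cos t)).hasDerivWithinAt (s := Ioo 0 (π / 2))
    have e : (fun t : ℝ => cos t ^ 2) = cos * cos := by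
      funext t; simp [sq]
    rw [e]
    have e2 : 2 * cos t * (-sin t) = -sin t * cos t + cos t * -sin t := by ring
    rw [e2]
    exact h
  rw [← img, integral_image_eq_integral_abs_deriv_smul measurableSet_Ioo hd hinj,
    ← integral_const_mul]
  refine setIntegral_congr_fun measurableSet_Ioo fun t ht => ?_
  have h1 : 0 < cos t := cos_pos_of_mem_Ioo ⟨by linarith [ht.1, pi_pos], ht.2⟩
  have h2 : 0 < sin t := sin_pos_of_pos_of_lt_pi ht.1 (by linarith [ht.2, pi_pos])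
  have h3 : 1 - cos t ^ 2 = sin t ^ 2 := by
    have := sin_sq_add_cos_sq t
    linarith
  simp only [smul_eq_mul]
  rw [h3, abs_of_neg (by nlinarith [mul_pos h1 h2] : 2 * cos t * (-sin t) < 0),
    ← rpow_natCast (cos t), ← rpow_natCast (sin t), ← rpow_mul h1.le, ← rpow_mul h2.le,
    sqrt_eq_rpow]
  have e1 : (cos t) ^ (((2 : ℕ) : ℝ) * ((3 / 4 : ℝ) - 1)) * cos t = cos t ^ (1 / 2 : ℝ) := by
    rw [← rpow_add_one h1.ne']
    norm_num
  have e2 : (sin t) ^ (((2 : ℕ) : ℝ) * ((1 / 2 : ℝ) - 1)) * sin t = 1 := by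
    rw [← rpow_add_one h2.ne']
    norm_num
  calc -(2 * cos t * (-sin t)) * ((cos t) ^ (((2 : ℕ) : ℝ) * ((3 / 4 : ℝ) - 1)) *
        (sin t) ^ (((2 : ℕ) : ℝ) * ((1 / 2 : ℝ) - 1))) =
        2 * ((cos t) ^ (((2 : ℕ) : ℝ) * ((3 / 4 : ℝ) - 1)) * cos t) *
          ((sin t) ^ (((2 : ℕ) : ℝ) * ((1 / 2 : ℝ) - 1)) * sin t) := by ring
    _ = 2 * cos t ^ (1 / 2 : ℝ) := by rw [e1, e2, mul_one]

lemma Gamma_vals : Gamma (3 / 4) * Gamma (1 / 2) / Gamma (3 / 4 + 1 / 2) =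
    4 * √2 * (π * √π) / Gamma (1 / 4) ^ 2 := by
  have h1 : Gamma (1 / 4) * Gamma (1 - 1 / 4) = π / sin (π * (1 / 4)) :=
    Gamma_mul_Gamma_one_sub (1 / 4)
  have h2 : sin (π * (1 / 4)) = √2 / 2 := by
    rw [show π * (1 / 4) = π / 4 by ring, sin_pi_div_four]
  have h3 : Gamma (3 / 4 + 1 / 2) = 1 / 4 * Gamma (1 / 4) := by
    rw [show (3 / 4 + 1 / 2 : ℝ) = 1 / 4 + 1 by norm_num, Gamma_add_one (by norm_num)]
  have h4 : (0 : ℝ) < Gamma (1 / 4) := Gamma_pos_of_pos (by norm_num)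
  have h5 : Gamma (3 / 4) = π * √2 / Gamma (1 / 4) := by
    rw [h2, show (1 - 1 / 4 : ℝ) = 3 / 4 by norm_num] at h1
    have h6 : (0 : ℝ) < √2 := by positivity
    have h7 : √2 * √2 = 2 := mul_self_sqrt (by norm_num)
    rw [eq_div_iff h4.ne', mul_comm, h1, div_eq_iff (by positivity)]
    linear_combination (-(π / 2)) * h7
  rw [h3, h5, Gamma_one_half_eq]
  field_simp

theorem sq_int : ∫ t in (0 : ℝ)..(π / 4), √(2 * cos (2 * t)) =
    2 * π ^ ((3 : ℝ) / 2) / Gamma (1 / 4) ^ 2 := by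
  have h1 : ∫ t in (0 : ℝ)..(π / 4), √(2 * cos (2 * t)) =
      (2 : ℝ)⁻¹ • ∫ u in (2 * 0 : ℝ)..(2 * (π / 4)), √(2 * cos u) :=
    intervalIntegral.integral_comp_mul_left (fun u => √(2 * cos u)) (two_ne_zero)
  have h2 : ∀ u : ℝ, √(2 * cos u) = √2 * √(cos u) := fun u => sqrt_mul (by norm_num) _
  have h3 := ProbabilityTheory.beta_eq_betaIntegralReal (3 / 4) (1 / 2) (by norm_num) (by norm_num)
  rw [betaReal, subst_int, ProbabilityTheory.beta, Gamma_vals] at h3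
  rw [h1, show (2 * (π / 4) : ℝ) = π / 2 by ring, mul_zero]
  simp_rw [h2]
  rw [intervalIntegral.integral_const_mul,
    intervalIntegral.integral_of_le (by positivity), integral_Ioc_eq_integral_Ioo]
  have h4 : ∫ t in Ioo (0 : ℝ) (π / 2), √(cos t) = (4 * √2 * (π * √π) / Gamma (1 / 4) ^ 2) / 2 := by
    rw [h3]; ring
  rw [h4]
  have h5 : π ^ ((3 : ℝ) / 2) = π * √π := by
    rw [show (3 : ℝ) / 2 = 1 + 1 / 2 by norm_num, rpow_add pi_pos, rpow_one, sqrt_eq_rpow]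
  have h6 : √2 * √2 = 2 := mul_self_sqrt (by norm_num)
  rw [h5, smul_eq_mul]
  calc (2 : ℝ)⁻¹ * (√2 * (4 * √2 * (π * √π) / Gamma (1 / 4) ^ 2 / 2)) =
        (√2 * √2) * (π * √π) / Gamma (1 / 4) ^ 2 := by ring
    _ = _ := by rw [h6]

end Pool.Agent.H541R3.Fk
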