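import Mathlib

/-! The exterior map of the square has a simple pole at infinity. The lemma
`deriv_ne_zero_of_injOn` is copied from the starting file `Helper469/Univalent.lean`, and the
set-up of `phi_lim` follows the starting file `Helper606/Fek/P_phi_c_ne.lean`. -/

set_option autoImplicit false
open Complex Metric Set MeasureTheory Filter Topology

namespace Pool.Agent.H541R3.Fk

/-- A holomorphic injective function on an open set has non-vanishing derivative. -/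
lemma deriv_ne_zero_of_injOn {f : ℂ → ℂ} {U : Set ℂ} (hU : IsOpen U) (hf : DifferentiableOn ℂ f U)
    (hinj : Set.InjOn f U) {z₀ : ℂ} (hz : z₀ ∈ U) : deriv f z₀ ≠ 0 := by
  intro h0
  have hfa : AnalyticAt ℂ f z₀ := hf.analyticAt (hU.mem_nhds hz)
  have hFa : AnalyticAt ℂ (fun z => f z - f z₀) z₀ := hfa.sub analyticAt_const
  have hne : ¬ ∀ᶠ z in 𝓝 z₀, f z - f z₀ = 0 := by
    intro h
    have h1 : ∀ᶠ z in 𝓝[≠] z₀, f z - f z₀ = 0 ∧ z ∈ U ∧ z ≠ z₀ := by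
      filter_upwards [h.filter_mono nhdsWithin_le_nhds,
        (hU.mem_nhds hz |> fun h => mem_nhdsWithin_of_mem_nhds h),
        self_mem_nhdsWithin] with z h1 h2 h3
      exact ⟨h1, h2, h3⟩
    obtain ⟨z, hz1, hz2, hz3⟩ := h1.exists
    exact hz3 (hinj hz2 hz (sub_eq_zero.mp hz1))
  obtain ⟨n, g, hga, hg0, hgeq⟩ := hFa.exists_eventuallyEq_pow_smul_nonzero_iff.mpr hne
  have hn0 : n ≠ 0 := by
    rintro rfl
    have := hgeq.self_of_nhds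
    simp at this
    exact hg0 this.symm
  have hn1 : n ≠ 1 := by
    rintro rfl
    have h1 : HasDerivAt (fun z => (z - z₀) ^ 1 • g z) (g z₀) z₀ := by
      have h2 := ((hasDerivAt_id z₀).sub_const z₀).mul hga.differentiableAt.hasDerivAt
      simpa using! h2
    have h3 : HasDerivAt (fun z => f z - f z₀) (g z₀) z₀ := h1.congr_of_eventuallyEq hgeq
    have h4 : HasDerivAt f (g z₀) z₀ := by simpa using h3.add_const (f z₀)
    rw [h4.deriv] at h0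
    exact hg0 h0
  obtain ⟨c, hc⟩ := IsAlgClosed.exists_pow_nat_eq (g z₀) (Nat.pos_of_ne_zero hn0)
  have hc0 : c ≠ 0 := by
    rintro rfl
    rw [zero_pow hn0] at hc
    exact hg0 hc.symm
  set h : ℂ → ℂ := fun z => c * (g z / g z₀) ^ (1 / (n : ℂ)) with hh
  have hslit : g z₀ / g z₀ ∈ Complex.slitPlane := by rw [div_self hg0]; exact Complex.one_mem_slitPlane
  have hha : AnalyticAt ℂ h z₀ := by
    apply analyticAt_const.mul
    exact (hga.div analyticAt_const hg0).cpow analyticAt_const hslit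
  have hnC : (n : ℂ) ≠ 0 := by exact_mod_cast hn0
  have hhn : ∀ z, h z ^ n = g z := by
    intro z
    rw [hh]
    simp only
    rw [mul_pow, hc, ← Complex.cpow_mul_nat]
    rw [one_div, inv_mul_cancel₀ hnC, Complex.cpow_one]
    field_simp
  have hh0 : h z₀ = c := by
    rw [hh]; simp [div_self hg0]
  set φ : ℂ → ℂ := fun z => (z - z₀) * h z with hφ
  have hφd : HasStrictDerivAt φ c z₀ := by
    have h1 : HasStrictDerivAt h (deriv h z₀) z₀ := hha.hasStrictDerivAt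
    have h2 : HasStrictDerivAt (fun z : ℂ => z - z₀) 1 z₀ := (hasStrictDerivAt_id z₀).sub_const z₀
    have h3 := h2.mul h1
    rw [← hh0]
    simpa using! h3
  have hmap : map φ (𝓝 z₀) = 𝓝 0 := by
    have := hφd.map_nhds_eq hc0
    rw [this]
    congr 1
    rw [hφ]; simp
  have hV : ∀ᶠ z in 𝓝 z₀, z ∈ U ∧ f z - f z₀ = φ z ^ n := by
    filter_upwards [hU.mem_nhds hz, hgeq] with z h1 h2
    refine ⟨h1, ?_⟩
    rw [h2, hφ]
    simp only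
    rw [mul_pow, hhn, smul_eq_mul]
  obtain ⟨V, hVm, hV2⟩ := hV.exists_mem
  have himg : φ '' V ∈ 𝓝 (0 : ℂ) := by
    rw [← hmap]
    exact image_mem_map hVm
  set ζ : ℂ := Complex.exp (2 * Real.pi * I / n) with hζ
  have hprim : IsPrimitiveRoot ζ n := Complex.isPrimitiveRoot_exp n hn0
  have hζ1 : ζ ≠ 1 := hprim.ne_one (by omega)
  have hζn : ζ ^ n = 1 := hprim.pow_eq_one
  have hcont : Tendsto (fun w : ℂ => ζ * w) (𝓝 0) (𝓝 0) := by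
    have : Continuous (fun w : ℂ => ζ * w) := by fun_prop
    simpa using this.tendsto 0
  have hboth : ∀ᶠ w in 𝓝[≠] (0 : ℂ), w ∈ φ '' V ∧ ζ * w ∈ φ '' V ∧ w ≠ 0 := by
    filter_upwards [mem_nhdsWithin_of_mem_nhds himg, mem_nhdsWithin_of_mem_nhds (hcont himg),
      self_mem_nhdsWithin] with w h1 h2 h3
    exact ⟨h1, h2, h3⟩
  obtain ⟨w, ⟨z1, hz1, hw1⟩, ⟨z2, hz2, hw2⟩, hw0⟩ := hboth.exists
  have e1 := (hV2 z1 hz1).2
  have e2 := (hV2 z2 hz2).2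
  rw [hw1] at e1
  rw [hw2, mul_pow, hζn, one_mul] at e2
  have e3 : f z1 = f z2 := by
    have : f z1 - f z₀ = f z2 - f z₀ := by rw [e1, e2]
    linear_combination this
  have e4 := hinj (hV2 z1 hz1).1 (hV2 z2 hz2).1 e3
  rw [← e4, hw1] at hw2
  apply hζ1
  have : (ζ - 1) * w = 0 := by linear_combination -hw2
  rcases mul_eq_zero.mp this with h1 | h1
  · linear_combination h1
  · exact absurd h1 hw0



theorem phi_lim (φ : ℂ → ℂ)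
    (hd : DifferentiableOn ℂ φ {z : ℂ | 1 < max |z.re| |z.im|})
    (hi : Set.InjOn φ {z : ℂ | 1 < max |z.re| |z.im|})
    (him : φ '' {z : ℂ | 1 < max |z.re| |z.im|} = {w : ℂ | 1 < ‖w‖})
    (hT : Tendsto (fun z => ‖φ z‖) (cocompact ℂ) atTop) :
    ∃ c : ℂ, Tendsto (fun z => φ z / z) (cocompact ℂ) (𝓝 c) := by
  obtain ⟨Ω, hΩ⟩ : ∃ Ω : Set ℂ, Ω = {z : ℂ | 1 < max |z.re| |z.im|} := ⟨_, rfl⟩
  rw [← hΩ] at hd hi him
  have hΩm : ∀ z : ℂ, 2 < ‖z‖ → z ∈ Ω := by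
    intro z hz
    rw [hΩ]
    change 1 < max |z.re| |z.im|
    by_contra h
    rw [not_lt, max_le_iff] at h
    have := Complex.norm_le_abs_re_add_abs_im z
    linarith [h.1, h.2]
  have hφ1 : ∀ z ∈ Ω, 1 < ‖φ z‖ := by
    intro z hz
    have h : φ z ∈ φ '' Ω := ⟨z, hz, rfl⟩
    rw [him] at h
    exact h
  have hφ0 : ∀ z ∈ Ω, φ z ≠ 0 := by
    intro z hz h
    have := hφ1 z hz
    rw [h, norm_zero] at this
    linarith
  have hB : ∀ ξ ∈ Metric.ball (0:ℂ) (1/2) \ {0}, ξ⁻¹ ∈ Ω := by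
    rintro ξ ⟨h1, h2⟩
    apply hΩm
    rw [mem_ball_zero_iff] at h1
    have h3 : 0 < ‖ξ‖ := norm_pos_iff.2 h2
    rw [norm_inv, lt_inv_comm₀ (by norm_num) h3]
    linarith
  obtain ⟨Φ, hΦ⟩ : ∃ Φ : ℂ → ℂ, ∀ ξ, Φ ξ = (φ ξ⁻¹)⁻¹ := ⟨fun ξ => (φ ξ⁻¹)⁻¹, fun _ => rfl⟩
  have hΦd : DifferentiableOn ℂ Φ (Metric.ball (0:ℂ) (1/2) \ {0}) := by
    have h1 : DifferentiableOn ℂ (fun ξ : ℂ => (φ ξ⁻¹)⁻¹) (Metric.ball (0:ℂ) (1/2) \ {0}) := by
      have h2 : DifferentiableOn ℂ (fun ξ : ℂ => ξ⁻¹) (Metric.ball (0:ℂ) (1/2) \ {0}) :=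
        differentiableOn_inv.mono fun ξ hξ => hξ.2
      exact (hd.comp h2 fun ξ hξ => hB ξ hξ).inv fun ξ hξ => hφ0 _ (hB ξ hξ)
    exact h1.congr fun ξ _ => hΦ ξ
  have hΦb : ∀ ξ ∈ Metric.ball (0:ℂ) (1/2) \ {0}, ‖Φ ξ‖ ≤ 1 := by
    intro ξ hξ
    rw [hΦ, norm_inv]
    exact inv_le_one_of_one_le₀ (hφ1 _ (hB ξ hξ)).le
  obtain ⟨Ψ, hΨd, hΨe⟩ : ∃ Ψ : ℂ → ℂ, DifferentiableOn ℂ Ψ (Metric.ball (0:ℂ) (1/2)) ∧
      ∀ ξ, ξ ≠ 0 → Ψ ξ = Φ ξ := by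
    refine ⟨_, Complex.differentiableOn_update_limUnder_of_bddAbove
      (Metric.ball_mem_nhds (0:ℂ) (by norm_num : (0:ℝ) < 1/2)) hΦd ⟨1, ?_⟩, ?_⟩
    · rintro _ ⟨ξ, hξ, rfl⟩
      exact hΦb ξ hξ
    · intro ξ hξ
      exact Function.update_of_ne hξ _ _
  have h0mem : (0:ℂ) ∈ Metric.ball (0:ℂ) (1/2) := Metric.mem_ball_self (by norm_num)
  have hΨdiff : DifferentiableAt ℂ Ψ 0 :=
    hΨd.differentiableAt (Metric.ball_mem_nhds (0:ℂ) (by norm_num))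
  have hΨc : Tendsto Ψ (𝓝[≠] 0) (𝓝 (Ψ 0)) :=
    hΨdiff.continuousAt.tendsto.mono_left nhdsWithin_le_nhds
  have hinv : Tendsto (fun ξ : ℂ => ξ⁻¹) (𝓝[≠] (0:ℂ)) (cocompact ℂ) := by
    rw [← Metric.cobounded_eq_cocompact]
    exact tendsto_inv₀_nhdsNE_zero
  have hmemB : ∀ᶠ ξ in 𝓝[≠] (0:ℂ), ξ ∈ Metric.ball (0:ℂ) (1/2) \ {0} := by
    have h1 : ∀ᶠ ξ in 𝓝[≠] (0:ℂ), ξ ∈ Metric.ball (0:ℂ) (1/2) :=
      nhdsWithin_le_nhds (Metric.ball_mem_nhds (0:ℂ) (by norm_num))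
    have h2 : ∀ᶠ ξ in 𝓝[≠] (0:ℂ), ξ ∈ ({0}ᶜ : Set ℂ) := self_mem_nhdsWithin
    exact (h1.and h2).mono fun ξ h => ⟨h.1, h.2⟩
  have hΦ0 : Tendsto Φ (𝓝[≠] 0) (𝓝 0) := by
    have h1 : Tendsto (fun ξ : ℂ => φ ξ⁻¹) (𝓝[≠] 0) (Bornology.cobounded ℂ) :=
      tendsto_norm_atTop_iff_cobounded.1 (hT.comp hinv)
    exact (tendsto_inv₀_cobounded.comp h1).congr fun ξ => (hΦ ξ).symm
  have hΨ0 : Ψ 0 = 0 := by
    refine tendsto_nhds_unique hΨc (hΦ0.congr' ?_)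
    filter_upwards [hmemB] with ξ hξ
    exact (hΨe ξ hξ.2).symm
  have hΨne : ∀ ξ ∈ Metric.ball (0:ℂ) (1/2) \ {0}, Ψ ξ ≠ 0 := by
    intro ξ hξ
    rw [hΨe ξ hξ.2, hΦ]
    exact inv_ne_zero (hφ0 _ (hB ξ hξ))
  have hinjΨ : InjOn Ψ (Metric.ball (0:ℂ) (1/2)) := by
    intro ξ hξ η hη h
    by_cases h1 : ξ = 0
    · by_cases h2 : η = 0
      · rw [h1, h2]
      · exfalso
        rw [h1, hΨ0] at h
        exact hΨne η ⟨hη, h2⟩ h.symm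
    · by_cases h2 : η = 0
      · exfalso
        rw [h2, hΨ0] at h
        exact hΨne ξ ⟨hξ, h1⟩ h
      · rw [hΨe ξ h1, hΨe η h2, hΦ, hΦ, inv_inj] at h
        exact inv_injective (hi (hB ξ ⟨hξ, h1⟩) (hB η ⟨hη, h2⟩) h)
  have hd0 : deriv Ψ 0 ≠ 0 := deriv_ne_zero_of_injOn isOpen_ball hΨd hinjΨ h0mem
  have h1 : Tendsto (slope Ψ 0) (𝓝[≠] 0) (𝓝 (deriv Ψ 0)) :=
    hasDerivAt_iff_tendsto_slope.1 hΨdiff.hasDerivAt
  refine ⟨(deriv Ψ 0)⁻¹, ?_⟩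
  have hev : ∀ᶠ z : ℂ in cocompact ℂ, 2 < ‖z‖ :=
    (tendsto_norm_cocompact_atTop (E := ℂ)).eventually (eventually_gt_atTop 2)
  have hinv2 : Tendsto (fun z : ℂ => z⁻¹) (cocompact ℂ) (𝓝[≠] 0) := by
    rw [tendsto_nhdsWithin_iff]
    refine ⟨?_, ?_⟩
    · rw [← Metric.cobounded_eq_cocompact]
      exact tendsto_inv₀_cobounded
    · filter_upwards [hev] with z hz
      have : z ≠ 0 := norm_pos_iff.1 (by linarith)
      exact inv_ne_zero this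
  refine ((h1.inv₀ hd0).comp hinv2).congr' ?_
  filter_upwards [hev] with z hz
  have hz0 : z ≠ 0 := norm_pos_iff.1 (by linarith)
  have hφz := hφ0 z (hΩm z hz)
  show (slope Ψ 0 z⁻¹)⁻¹ = φ z / z
  rw [slope_def_field, hΨ0, hΨe _ (inv_ne_zero hz0), hΦ, inv_inv, sub_zero, sub_zero]
  field_simp

end Pool.Agent.H541R3.Fk
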